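import Mathlib
import Pool.Agent.Lib.MP_ee7726_lc.Nbr

namespace Pool.Agent.Lib.MP_ee7726_lc.SR

open Finset

/-- The counters halve from level to level. -/
def KK (M : ℕ) : ℕ → ℕ := fun k => 2 ^ (M - k)

/-- Dyadic thresholds proportional to the counters. -/
def th (g : ℕ) : ℕ → ℕ := fun k => 2 ^ g >>> k

theorem th_of_le {g k : ℕ} (h : k ≤ g) : th g k = 2 ^ (g - k) := by
  unfold th
  rw [Nat.shiftRight_eq_div_pow, Nat.pow_div h (by norm_num)]

theorem th_of_lt {g k : ℕ} (h : g < k) : th g k = 0 := by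
  unfold th
  rw [Nat.shiftRight_eq_div_pow]
  exact Nat.div_eq_of_lt (Nat.pow_lt_pow_right (by norm_num) h)

theorem two_pow_le {a b : ℕ} (h : a ≤ b) : 2 ^ a ≤ 2 ^ b := Nat.pow_le_pow_right (by norm_num) h

/-- The cut condition for dyadic data. -/
theorem cut_cond {w ω p M g k δ : ℕ} (hw : w ≤ 2 ^ ω) (hp : p ≤ M) (hδ : δ ≤ M)
    (h : ω + δ + k ≤ g + p) : w * KK M p ≤ (th g k + 1) * 2 ^ (M - δ) := by
  unfold KK
  rcases le_or_gt k g with hk | hk
  · rw [th_of_le hk]
    calc w * 2 ^ (M - p) ≤ 2 ^ ω * 2 ^ (M - p) := by gcongr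
      _ = 2 ^ (ω + (M - p)) := by rw [pow_add]
      _ ≤ 2 ^ (g - k + (M - δ)) := two_pow_le (by omega)
      _ = 2 ^ (g - k) * 2 ^ (M - δ) := by rw [pow_add]
      _ ≤ _ := by gcongr; omega
  · rw [th_of_lt hk]
    calc w * 2 ^ (M - p) ≤ 2 ^ ω * 2 ^ (M - p) := by gcongr
      _ = 2 ^ (ω + (M - p)) := by rw [pow_add]
      _ ≤ 2 ^ (M - δ) := two_pow_le (by omega)
      _ = _ := by ring

variable {X Y Z : Inst} {y : ℕ → Bool} {K θ : ℕ → ℕ} {S W Pi : Finset ℕ} {T : ℕ} {J : ℕ → ℕ}

/-- The level bound with a bottom term that counts only coordinates of `S`. -/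
theorem level_bound' (hP : Desig y S T J Pi) {n l L D : ℕ} (hl : l ≤ L) (hW : ∀ τ, X τ ⊆ W)
    (hWn : W ⊆ range n) (h0 : T ≤ K 0) (hD : ∀ k < l, W.card * K k ≤ (θ k + 1) * D) :
    (piOf Pi J X).card ≤ l * D + (W ∩ S).card * K l + errU X y K θ T n L +
      ∑ k ∈ range l, (piLev Pi J X y K θ k).card := by
  have e0 : piOf Pi J X = piOf Pi J (lev X y K θ 0) := by
    ext τ
    simp only [piOf, mem_filter, mem_lev, lvl]
    refine ⟨fun h => ⟨h.1, h.2, ?_⟩, fun h => ⟨h.1, h.2.1⟩⟩
    have a1 : cnt X y (J τ) τ ≤ τ := by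
      unfold cnt
      simpa using card_filter_le (range τ) _
    have a2 := (hP τ h.1).1
    omega
  have hWk : ∀ k τ, lev X y K θ k τ ⊆ W := fun k τ => (lev_subset k τ).trans (hW τ)
  have h1 : ∀ q ≤ l, (piOf Pi J X).card ≤ q * D +
      ∑ k ∈ range q, imb y T (hi (lev X y K θ k) (θ k)) +
      ∑ k ∈ range q, (piLev Pi J X y K θ k).card + (piOf Pi J (lev X y K θ q)).card := by
    intro q hq
    induction q with
    | zero => simp [e0]
    | succ q ih =>
      have a1 := ih (by omega)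
      have a2 := level_step (X := X) (K := K) (θ := θ) hP q
      have a3 := pos_le y T (hi (lev X y K θ q) (θ q))
      have a4 := neg_hi_le (hWk q) (fun j => cnt_surv_le _ y (K q) j T) (hD q (by omega))
      rw [sum_range_succ, sum_range_succ, add_mul]
      omega
  have h2 : (piOf Pi J (lev X y K θ l)).card ≤
      (W ∩ S).card * K l + ∑ j ∈ range n, imb y T (has (lev X y K θ l) j) := by
    refine le_trans (card_le_sum_pos hP _ (W ∩ S) (filter_subset _ _)
      (fun j => has (lev X y K θ l) j) fun τ hτ => ?_) ?_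
    · have := mem_filter.1 hτ
      exact ⟨mem_inter.2 ⟨hWk l τ this.2, (hP τ this.1).2.2⟩, by simpa [has] using this.2⟩
    · refine le_trans (sum_le_sum fun j _ => pos_le y T _) ?_
      rw [sum_add_distrib]
      refine Nat.add_le_add ?_ (sum_le_sum_of_subset (inter_subset_left.trans hWn))
      rw [← smul_eq_mul]
      refine sum_le_card_nsmul _ _ _ fun j _ => ?_
      rw [neg_has]
      exact cnt_surv_le _ _ _ _ _
  have h3 : ∑ k ∈ range l, imb y T (hi (lev X y K θ k) (θ k)) +
      ∑ j ∈ range n, imb y T (has (lev X y K θ l) j) ≤ errU X y K θ T n L := by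
    unfold errU
    refine le_trans ?_ (sum_le_sum_of_subset (range_mono (Nat.succ_le_succ hl)))
    rw [sum_range_succ]
    refine Nat.add_le_add (sum_le_sum fun k _ => Nat.le_add_right _ _) (Nat.le_add_left _ _)
  have := h1 l le_rfl
  omega

/-- Coordinates of `S` that survive in negative examples are counted at most `K k` times. -/
theorem sum_inter_le (hW : ∀ τ, X τ ⊆ W) (k : ℕ) (A : Finset ℕ)
    (hA : ∀ τ ∈ A, τ < T ∧ y τ = false) :
    ∑ a ∈ A, (lev X y K θ k a ∩ S).card ≤ (W ∩ S).card * K k := by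
  have h1 := sum_weight_le (Y := lev X y K θ k) (W := W) A hA (fun j => if j ∈ S then 1 else 0)
    (fun τ => (lev_subset k τ).trans (hW τ))
  have e1 : ∀ a, (lev X y K θ k a ∩ S).card =
      ∑ j ∈ lev X y K θ k a, if j ∈ S then 1 else 0 := fun a => by
    rw [← card_filter, filter_mem_eq_inter]
  simp only [e1]
  refine h1.trans ?_
  rw [← filter_mem_eq_inter, card_filter, sum_mul]
  refine sum_le_sum fun j _ => ?_
  rw [mul_comm]
  exact Nat.mul_le_mul_left _ (cnt_surv_le _ _ _ _ _)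

/-- The numerical condition under which `j` nested anchors suffice. -/
def Cond (i l M : ℕ) : ℕ → ℕ → ℕ → ℕ → Prop
  | 0, ω, δ, p => ω + 2 * δ ≤ i + p ∧ δ ≤ M ∧ p ≤ M
  | j + 1, ω, δ, _ => ω + δ ≤ M ∧
      ∀ k, i ≤ k + 1 → k < l → k ≤ ω + δ → Cond i l M j (ω + δ - k) (δ + (k + 1 - i)) k

theorem Cond.le {i l M j ω δ p : ℕ} (h : Cond i l M j ω δ p) : δ ≤ M := by
  cases j with
  | zero => exact h.2.1
  | succ j => have := h.1; omega

/-- The exponent of the frequency ratio. -/
def ee : ℕ → ℕ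
  | 0 => 0
  | j + 1 => ee j + j + 2

theorem two_ee (j : ℕ) : 2 * ee j = j * (j + 3) := by
  induction j with
  | zero => rfl
  | succ j ih => simp only [ee]; nlinarith

theorem cond_of {i l M : ℕ} (hil : i ≤ l) (j : ℕ) : ∀ ω δ p, (j + 3) * l ≤ M →
    ω + (j + 3) * δ + ee j * (l - i) + j + 2 ≤ (j + 3) * i → Cond i l M (j + 1) ω δ p := by
  induction j with
  | zero =>
    intro ω δ p hM h
    simp only [ee] at h
    refine ⟨by omega, fun k h1 h2 h3 => ⟨by omega, by omega, by omega⟩⟩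
  | succ j ih =>
    intro ω δ p hM h
    have a1 : (j + 1 + 3) * i ≤ (j + 1 + 3) * l := Nat.mul_le_mul_left _ hil
    have a2 : δ ≤ (j + 1 + 3) * δ := Nat.le_mul_of_pos_left _ (by omega)
    refine ⟨by omega, fun k h1 h2 h3 => ih _ _ _ (by nlinarith) ?_⟩
    obtain ⟨x, hx⟩ : ∃ x, k + 1 = i + x := ⟨k + 1 - i, by omega⟩
    obtain ⟨u, hu⟩ : ∃ u, l = i + u := ⟨l - i, by omega⟩
    obtain ⟨v, hv⟩ : ∃ v, ω + δ = k + v := ⟨ω + δ - k, by omega⟩
    have e1 : k + 1 - i = x := by omega
    have e2 : l - i = u := by omega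
    have e3 : ω + δ - k = v := by omega
    rw [e2] at h
    rw [e1, e2, e3]
    simp only [ee] at h
    have a3 : (j + 2) * x ≤ (j + 2) * u := Nat.mul_le_mul_left _ (by omega)
    nlinarith

theorem cond_of_lt {i l M j ω δ p : ℕ} (hil : l < i) (h : ω + δ ≤ M) :
    Cond i l M (j + 1) ω δ p := ⟨h, fun k h1 h2 _ => by omega⟩

/-- The iterated bound. -/
theorem iter_bound {n L M i l : ℕ} (E : ℕ → Inst → ℕ) (hT : T = 2 ^ M) (hl : l ≤ L) (hL : L < M)
    (hi' : i ≤ L + 1)
    (hE0 : ∀ Y, ∀ b ≤ M + 1,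
      imb y T (hi Y (th M b)) + ∑ j ∈ range n, imb y T (lo Y (th M b) j) ≤ E 0 Y)
    (hE1 : ∀ j Y, ∀ g ≤ M, KK M L ^ (j + 1) * errU Y y (KK M) (th g) T n L +
      ∑ k ∈ range L, ∑ a ∈ range T, E j (anch Y y (KK M) (th g) k a) ≤ E (j + 1) Y) (j : ℕ) :
    ∀ (Y : Inst) (W P : Finset ℕ) (ω δ p : ℕ), Desig y S T J P → (∀ τ, Y τ ⊆ W) → W ⊆ range n →
      W.card ≤ 2 ^ ω → (noise Y y S T).card ≤ KK M i → (∀ c, cnt Y y c T ≤ KK M p) →
      Cond i l M j ω δ p →
      KK M L ^ j * (piOf P J Y).card ≤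
        KK M L ^ j * (2 * (2 * L + 1) ^ j * (2 ^ (M - δ) + (W ∩ S).card * KK M l)) + E j Y := by
  induction j with
  | zero =>
    intro Y W P ω δ p hP hW hWn hw hm hK hc
    obtain ⟨c1, c2, c3⟩ := hc
    have h1 := bound0 (β := th M (min (M - i + δ) (M + 1))) (D := 2 ^ (M - δ)) hP hW hWn hK
      (cut_cond hw c3 c2 (by omega)) hm
    have h2 := hE0 Y (min (M - i + δ) (M + 1)) (min_le_right _ _)
    have h3 : KK M i * th M (min (M - i + δ) (M + 1)) ≤ 2 ^ (M - δ) := by
      rcases le_or_gt δ i with h | h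
      · rw [th_of_le (by omega)]
        unfold KK
        rw [← pow_add]
        exact two_pow_le (by omega)
      · rw [th_of_lt (by omega)]
        exact Nat.zero_le _
    simp only [pow_zero, one_mul, mul_one]
    omega
  | succ j ih =>
    intro Y W P ω δ p hP hW hWn hw hm hK hc
    obtain ⟨c1, c2⟩ := hc
    have h1 := level_bound' (X := Y) (K := KK M) (θ := th (ω + δ)) (D := 2 ^ (M - δ)) hP hl hW hWn
      (by rw [hT]; exact le_rfl) (fun k hk => cut_cond hw (by omega) (by omega) (by omega))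
    set κ := KK M L with hκ
    set h := 2 * (2 * L + 1) ^ j with hh
    set D := 2 ^ (M - δ) with hD
    set B := (W ∩ S).card * KK M l with hB
    have h2 : ∀ k ∈ range l, κ ^ (j + 1) * (piLev P J Y y (KK M) (th (ω + δ)) k).card ≤
        κ ^ (j + 1) * (h * (D + 2 * B)) +
          ∑ a ∈ range T, E j (anch Y y (KK M) (th (ω + δ)) k a) := by
      intro k hk
      have hk' := mem_range.1 hk
      rcases (piLev P J Y y (KK M) (th (ω + δ)) k).eq_empty_or_nonempty with he | ⟨τ, hτ⟩
      · rw [he]; simp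
      have b1 := mem_filter.1 hτ
      have b2 := hP τ b1.1
      have hik : i ≤ k + 1 := by
        have d1 := b1.2.2.2.trans ((cnt_mono (lvl_subset (k + 1)) y _ _).trans
          ((cnt_le_noise b2.2.2 b2.1.le).trans hm))
        unfold KK at d1
        have := (Nat.pow_le_pow_iff_right (by norm_num : 1 < 2)).1 d1
        omega
      have hkg : k ≤ ω + δ := by
        by_contra hc
        have d1 := b1.2.2.1
        rw [th_of_lt (not_le.1 hc)] at d1
        have := card_pos.2 ⟨_, b1.2.1⟩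
        omega
      have c3 := c2 k hik hk' hkg
      have c4 := c3.le
      have a1 := anchor_bound (X := Y) (K := KK M) (θ := th (ω + δ)) hP k
      set Q := piLev P J Y y (KK M) (th (ω + δ)) k with hQ
      set N := noise (lvl Y y (KK M) (th (ω + δ)) (k + 1)) y S T with hN
      have a2 : ∀ a ∈ N, κ ^ j * (piOf Q J (anch Y y (KK M) (th (ω + δ)) k a)).card ≤
          κ ^ j * (h * (2 ^ (M - (δ + (k + 1 - i))) +
            (lev Y y (KK M) (th (ω + δ)) k a ∩ S).card * KK M l)) +
          E j (anch Y y (KK M) (th (ω + δ)) k a) := by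
        intro a ha
        have hne := nonempty_of_mem_noise ha
        have d1 := card_lev_le_of_nonempty hne
        rw [th_of_le hkg] at d1
        exact ih _ _ Q _ _ k (hP.filter _) (anch_subset_univ (hne.mono (lvl_succ_subset k a)))
          ((lev_subset k a).trans ((hW a).trans hWn)) d1
          ((card_le_card (noise_mono (anch_subset k a))).trans hm) (fun c => cnt_anch_le k a c T) c3
      have a3 := sum_le_sum a2
      rw [← mul_sum, sum_add_distrib, ← mul_sum, ← mul_sum, sum_add_distrib, sum_const,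
        smul_eq_mul, ← sum_mul] at a3
      have a4 : N.card ≤ KK M i := (card_le_card (noise_mono (lvl_subset (k + 1)))).trans hm
      have a5 := sum_inter_le (K := KK M) (θ := th (ω + δ)) (S := S) hW k N
        (fun a ha => ⟨mem_range.1 (mem_filter.1 ha).1, (mem_filter.1 ha).2.1⟩)
      have a6 : ∑ a ∈ N, E j (anch Y y (KK M) (th (ω + δ)) k a) ≤
          ∑ a ∈ range T, E j (anch Y y (KK M) (th (ω + δ)) k a) :=
        sum_le_sum_of_subset (filter_subset _ _)
      have e1 : KK M i * 2 ^ (M - (δ + (k + 1 - i))) = KK M (k + 1) * D := by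
        unfold KK
        rw [hD, ← pow_add, ← pow_add]
        congr 1
        omega
      have e2 : KK M k = 2 * KK M (k + 1) := by
        unfold KK
        rw [show M - k = M - (k + 1) + 1 by omega, pow_succ]
        ring
      have a7 : N.card * 2 ^ (M - (δ + (k + 1 - i))) +
          (∑ a ∈ N, (lev Y y (KK M) (th (ω + δ)) k a ∩ S).card) * KK M l ≤
          KK M (k + 1) * (D + 2 * B) := by
        calc _ ≤ KK M i * 2 ^ (M - (δ + (k + 1 - i))) + (W ∩ S).card * KK M k * KK M l := by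
              gcongr
          _ = _ := by rw [e1, e2, hB]; ring
      have a8 : KK M (k + 1) * (κ ^ j * Q.card) ≤ KK M (k + 1) * (κ ^ j * (h * (D + 2 * B))) +
          ∑ a ∈ range T, E j (anch Y y (KK M) (th (ω + δ)) k a) := by
        calc _ = κ ^ j * (KK M (k + 1) * Q.card) := by ring
          _ ≤ _ := Nat.mul_le_mul_left _ a1
          _ ≤ _ := a3
          _ ≤ κ ^ j * (h * (KK M (k + 1) * (D + 2 * B))) +
              ∑ a ∈ range T, E j (anch Y y (KK M) (th (ω + δ)) k a) := by gcongr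
          _ = _ := by ring
      have a9 := cancel_aux (c := κ) a8 (two_pow_le (by omega))
      calc _ = κ * (κ ^ j * Q.card) := by ring
        _ ≤ _ := a9
        _ = _ := by ring
    have h3 := sum_le_sum h2
    rw [← mul_sum, sum_add_distrib, sum_const, card_range, smul_eq_mul] at h3
    have h4 : ∑ k ∈ range l, ∑ a ∈ range T, E j (anch Y y (KK M) (th (ω + δ)) k a) ≤
        ∑ k ∈ range L, ∑ a ∈ range T, E j (anch Y y (KK M) (th (ω + δ)) k a) :=
      sum_le_sum_of_subset (range_mono hl)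
    have h5 := hE1 j Y (ω + δ) c1
    have h6 := Nat.mul_le_mul_left (κ ^ (j + 1)) h1
    have h7 : l * D + B + l * (h * (D + 2 * B)) ≤ 2 * (2 * L + 1) ^ (j + 1) * (D + B) := by
      have e : 2 * (2 * L + 1) ^ (j + 1) = (2 * L + 1) * h := by rw [hh]; ring
      have d1 : 1 ≤ h := by rw [hh]; exact Nat.mul_pos (by norm_num) (by positivity)
      have d2 : L * D ≤ L * (h * D) := Nat.mul_le_mul_left _ (Nat.le_mul_of_pos_left _ d1)
      have d3 : B ≤ h * B := Nat.le_mul_of_pos_left _ d1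
      calc _ ≤ L * D + B + L * (h * (D + 2 * B)) := by gcongr
        _ ≤ L * (h * D) + h * B + L * (h * (D + 2 * B)) + h * D := by omega
        _ = _ := by rw [e]; ring
    have h8 := Nat.mul_le_mul_left (κ ^ (j + 1)) h7
    have e3 : κ ^ (j + 1) * (l * (h * (D + 2 * B))) = l * (κ ^ (j + 1) * (h * (D + 2 * B))) := by
      ring
    simp only [mul_add] at h6 h8 h3 e3 ⊢
    omega

end Pool.Agent.Lib.MP_ee7726_lc.SR
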