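import Mathlib
import Pool.Agent.Lib.MP_ee7726_lc.Feat
import Pool.Agent.Lib.MP_ee7726_lc.SR.Iter

namespace Pool.Agent.Lib.MP_ee7726_lc.SR

open Finset

/-- The features of the innermost stage. -/
def fb (n M : ℕ) (Y : Inst) (f : ℕ) : ℕ → Bool := fun τ =>
  if f % (n + 2) < n then lo Y (th M (f / (n + 2))) (f % (n + 2)) τ
  else hi Y (th M (f / (n + 2))) τ

/-- The features of one level structure. -/
def fu (n M : ℕ) (Y : Inst) (y : ℕ → Bool) (g k c : ℕ) : ℕ → Bool := fun τ =>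
  if c < n then has (lev Y y (KK M) (th g) k) c τ
  else if c = n then hi (lev Y y (KK M) (th g) k) (th g k) τ else true

/-- The features with at most `j` nested anchors, coded by a number. -/
def ft (n L M : ℕ) (y : ℕ → Bool) : ℕ → Inst → ℕ → ℕ → Bool
  | 0, Y, f => fb n M Y f
  | j + 1, Y, f => fun τ =>
    if f / 2 ^ M / (L + 1) / (M + 1) % 2 = 0 then
      fu n M Y y (f / 2 ^ M / (L + 1) % (M + 1)) (f / 2 ^ M % (L + 1))
        (f / 2 ^ M / (L + 1) / (M + 1) / 2 % (n + 2)) τ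
    else ft n L M y j (anch Y y (KK M) (th (f / 2 ^ M / (L + 1) % (M + 1))) (f / 2 ^ M % (L + 1))
      (f % 2 ^ M)) (f / 2 ^ M / (L + 1) / (M + 1) / 2) τ

/-- The number of features. -/
def NN (n L M : ℕ) : ℕ → ℕ
  | 0 => (M + 2) * (n + 2)
  | j + 1 => NN n L M j * 2 * (M + 1) * (L + 1) * 2 ^ M

/-- The total imbalance. -/
def EE (n L M : ℕ) (y : ℕ → Bool) (T j : ℕ) (Y : Inst) : ℕ :=
  ∑ f ∈ range (NN n L M j), imb y T (ft n L M y j Y f)

theorem sum_divmod (F : ℕ → ℕ → ℕ) (N B : ℕ) :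
    ∑ f ∈ range (N * B), F (f / B) (f % B) = ∑ q ∈ range N, ∑ c ∈ range B, F q c := by
  induction N with
  | zero => simp
  | succ N ih =>
    rw [add_mul, one_mul, sum_range_add, ih, sum_range_succ]
    congr 1
    refine sum_congr rfl fun c hc => ?_
    have h := mem_range.1 hc
    rw [mul_comm N B, Nat.mul_add_div (by omega), Nat.mul_add_mod, Nat.div_eq_of_lt h,
      Nat.mod_eq_of_lt h, add_zero]

theorem sum_five (G : ℕ → ℕ → ℕ → ℕ → ℕ → ℕ) (N a b c d : ℕ) :
    ∑ f ∈ range (N * a * b * c * d),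
      G (f / d / c / b / a) (f / d / c / b % a) (f / d / c % b) (f / d % c) (f % d) =
    ∑ r ∈ range N, ∑ u ∈ range a, ∑ v ∈ range b, ∑ w ∈ range c, ∑ z ∈ range d, G r u v w z := by
  rw [sum_divmod (fun q z => G (q / c / b / a) (q / c / b % a) (q / c % b) (q % c) z),
    sum_divmod (fun q w => ∑ z ∈ range d, G (q / b / a) (q / b % a) (q % b) w z),
    sum_divmod (fun q v => ∑ w ∈ range c, ∑ z ∈ range d, G (q / a) (q % a) v w z),
    sum_divmod (fun r u => ∑ v ∈ range b, ∑ w ∈ range c, ∑ z ∈ range d, G r u v w z)]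

variable {n L M T : ℕ} {X Y : Inst} {y : ℕ → Bool}

theorem NN_eq (n L M j : ℕ) : ∃ c, (2 ^ M) ^ j ≤ c ∧ NN n L M j = c * (n + 2) := by
  induction j with
  | zero => exact ⟨M + 2, by simp, rfl⟩
  | succ j ih =>
    obtain ⟨c, h1, h2⟩ := ih
    refine ⟨c * 2 * (M + 1) * (L + 1) * 2 ^ M, ?_, by rw [NN, h2]; ring⟩
    rw [pow_succ]
    refine Nat.mul_le_mul_right _ (h1.trans ?_)
    calc c = c * 1 * 1 * 1 := by ring
      _ ≤ _ := by gcongr <;> omega

theorem EE_zero (Y : Inst) {b : ℕ} (hb : b ≤ M + 1) :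
    imb y T (hi Y (th M b)) + ∑ j ∈ range n, imb y T (lo Y (th M b) j) ≤ EE n L M y T 0 Y := by
  unfold EE NN
  have e := sum_divmod (fun q c => imb y T (fun τ =>
    if c < n then lo Y (th M q) c τ else hi Y (th M q) τ)) (M + 2) (n + 2)
  refine le_trans ?_ e.ge
  refine le_trans ?_ (single_le_sum (f := fun q => ∑ c ∈ range (n + 2), imb y T (fun τ =>
    if c < n then lo Y (th M q) c τ else hi Y (th M q) τ)) (fun _ _ => Nat.zero_le _)
    (mem_range.2 (Nat.lt_succ_of_le hb)))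
  rw [sum_range_succ, sum_range_succ]
  have e1 : ∑ c ∈ range n, imb y T (fun τ => if c < n then lo Y (th M b) c τ else hi Y (th M b) τ) =
      ∑ j ∈ range n, imb y T (lo Y (th M b) j) :=
    sum_congr rfl fun c hc => by simp only [mem_range.1 hc, if_true]
  have e2 : imb y T (fun τ => if n < n then lo Y (th M b) n τ else hi Y (th M b) τ) =
      imb y T (hi Y (th M b)) := by simp only [lt_irrefl, if_false]
  rw [e1, e2]
  omega

theorem sum_fu (Y : Inst) (g : ℕ) :
    errU Y y (KK M) (th g) T n L + imb y T (fun _ => true) ≤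
      ∑ k ∈ range (L + 1), ∑ c ∈ range (n + 2), imb y T (fu n M Y y g k c) := by
  have e : ∀ k ∈ range (L + 1), ∑ c ∈ range (n + 2), imb y T (fu n M Y y g k c) =
      (imb y T (hi (lev Y y (KK M) (th g) k) (th g k)) +
        ∑ j ∈ range n, imb y T (has (lev Y y (KK M) (th g) k) j)) + imb y T (fun _ => true) := by
    intro k _
    rw [sum_range_succ, sum_range_succ, add_comm (imb y T (hi _ _))]
    congr 2
    · refine sum_congr rfl fun c hc => ?_
      congr 1
      funext τ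
      simp [fu, mem_range.1 hc]
    · congr 1
      funext τ
      simp [fu]
    · funext τ
      simp [fu]
  rw [sum_congr rfl e, sum_add_distrib, sum_const, card_range, smul_eq_mul]
  exact Nat.add_le_add_left (Nat.le_mul_of_pos_left _ (Nat.succ_pos _)) _

theorem EE_succ (j : ℕ) (Y : Inst) {g : ℕ} (hg : g ≤ M) :
    (2 ^ M) ^ (j + 1) * (errU Y y (KK M) (th g) T n L + imb y T (fun _ => true)) +
      ∑ k ∈ range (L + 1), ∑ a ∈ range (2 ^ M), EE n L M y T j (anch Y y (KK M) (th g) k a) ≤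
      EE n L M y T (j + 1) Y := by
  have e := sum_five (fun r u v w z => imb y T (fun τ => if u = 0 then fu n M Y y v w (r % (n + 2)) τ
    else ft n L M y j (anch Y y (KK M) (th v) w z) r τ)) (NN n L M j) 2 (M + 1) (L + 1) (2 ^ M)
  refine le_trans ?_ e.ge
  have h1 : ∀ r ∈ range (NN n L M j),
      2 ^ M * ∑ w ∈ range (L + 1), imb y T (fu n M Y y g w (r % (n + 2))) +
      ∑ w ∈ range (L + 1), ∑ z ∈ range (2 ^ M),
        imb y T (ft n L M y j (anch Y y (KK M) (th g) w z) r) ≤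
      ∑ u ∈ range 2, ∑ v ∈ range (M + 1), ∑ w ∈ range (L + 1), ∑ z ∈ range (2 ^ M),
        imb y T (fun τ => if u = 0 then fu n M Y y v w (r % (n + 2)) τ
          else ft n L M y j (anch Y y (KK M) (th v) w z) r τ) := by
    intro r _
    rw [sum_range_succ _ 1, sum_range_one]
    refine Nat.add_le_add ?_ ?_
    · refine le_trans (le_of_eq ?_) (single_le_sum (fun _ _ => Nat.zero_le _)
        (mem_range.2 (Nat.lt_succ_of_le hg)))
      rw [mul_sum]
      refine sum_congr rfl fun w _ => ?_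
      simp only [if_true, sum_const, card_range, smul_eq_mul]
    · refine le_trans (le_of_eq ?_) (single_le_sum (fun _ _ => Nat.zero_le _)
        (mem_range.2 (Nat.lt_succ_of_le hg)))
      simp only [one_ne_zero, if_false]
  refine le_trans ?_ (sum_le_sum h1)
  rw [sum_add_distrib, ← mul_sum]
  refine Nat.add_le_add ?_ (le_of_eq ?_)
  · obtain ⟨c, c1, c2⟩ := NN_eq n L M j
    rw [c2, sum_divmod (fun _ d => ∑ w ∈ range (L + 1), imb y T (fu n M Y y g w d)), sum_const,
      card_range, smul_eq_mul, sum_comm, pow_succ, mul_comm ((2 ^ M) ^ j), mul_assoc]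
    exact Nat.mul_le_mul_left _ (Nat.mul_le_mul c1 (sum_fu Y g))
  · unfold EE
    rw [sum_comm (s := range (NN n L M j))]
    refine sum_congr rfl fun w _ => sum_comm

@[irreducible] def pu (t n : ℕ) : ℕ := n.size + t + 7
@[irreducible] def qL (t n : ℕ) : ℕ := (t + 3) * pu t n
@[irreducible] def qM (t n : ℕ) : ℕ := (4 * t + 3) * qL t n
@[irreducible] def qT (t n : ℕ) : ℕ := 2 ^ qM t n
@[irreducible] def qN (t n : ℕ) : ℕ := NN n (qL t n) (qM t n) t
@[irreducible] def qd (t n : ℕ) : ℕ := (2 * qL t n + 1).size * t + 4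

def feat (t n : ℕ) (X : Inst) (y : ℕ → Bool) (f : ℕ) : ℕ → Bool := ft n (qL t n) (qM t n) y t X f

def errAll (t n : ℕ) (X : Inst) (y : ℕ → Bool) (T : ℕ) : ℕ :=
  ∑ f ∈ range (qN t n), imb y T (feat t n X y f)

theorem two_sq_le {u : ℕ} (h : 7 ≤ u) : 2 * u ^ 2 ≤ 2 ^ u := by
  induction u, h using Nat.le_induction with
  | base => norm_num
  | succ u hu ih => rw [pow_succ 2]; nlinarith

theorem qL_le (t n : ℕ) : 2 * qL t n + 2 ≤ 2 ^ pu t n := by
  have h1 := two_sq_le (u := pu t n) (by unfold pu; omega)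
  have h2 : t + 4 ≤ pu t n := by unfold pu; omega
  unfold qL
  nlinarith

theorem qM_le (t n : ℕ) : qM t n + 2 ≤ (2 ^ pu t n) ^ 2 := by
  have h1 := two_sq_le (u := pu t n) (by unfold pu; omega)
  have h2 : t + 7 ≤ pu t n := by unfold pu; omega
  have h3 := qL_le t n
  have h4 : 4 * t + 3 ≤ 2 ^ pu t n := by nlinarith
  have h5 := Nat.mul_le_mul_right (qL t n) h4
  unfold qM
  nlinarith

theorem n_le (t n : ℕ) : n + 2 ≤ 2 ^ pu t n := by
  have h1 := Nat.lt_size_self n
  have h2 : 2 ^ (n.size + 1) ≤ 2 ^ pu t n := two_pow_le (by unfold pu; omega)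
  rw [pow_succ] at h2
  omega

theorem cube_le (t n : ℕ) : (2 ^ pu t n) ^ 3 ≤ 2 ^ qL t n := by
  rw [← pow_mul]
  refine two_pow_le ?_
  unfold qL
  nlinarith

theorem NN_le (t n j : ℕ) :
    NN n (qL t n) (qM t n) j ≤ 2 ^ qL t n * (2 ^ qL t n * 2 ^ qM t n) ^ j := by
  have h1 := qL_le t n
  have h2 := qM_le t n
  have h3 := n_le t n
  have h4 := cube_le t n
  induction j with
  | zero =>
    rw [NN, pow_zero, mul_one]
    calc _ ≤ (2 ^ pu t n) ^ 2 * 2 ^ pu t n := by gcongr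
      _ = (2 ^ pu t n) ^ 3 := by ring
      _ ≤ _ := h4
  | succ j ih =>
    rw [NN]
    calc _ = NN n (qL t n) (qM t n) j * ((qM t n + 1) * (2 * qL t n + 2) * 2 ^ qM t n) := by ring
      _ ≤ 2 ^ qL t n * (2 ^ qL t n * 2 ^ qM t n) ^ j *
          ((2 ^ pu t n) ^ 2 * 2 ^ pu t n * 2 ^ qM t n) := by gcongr; omega
      _ = 2 ^ qL t n * (2 ^ qL t n * 2 ^ qM t n) ^ j * ((2 ^ pu t n) ^ 3 * 2 ^ qM t n) := by ring
      _ ≤ 2 ^ qL t n * (2 ^ qL t n * 2 ^ qM t n) ^ j * (2 ^ qL t n * 2 ^ qM t n) := by gcongr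
      _ = _ := by ring

theorem qL_ge (t n : ℕ) : 8 ≤ qL t n := by
  have : 7 ≤ pu t n := by unfold pu; omega
  unfold qL
  nlinarith

theorem qd_add_le {t n r : ℕ} (hr : r ≤ n) : qd t n + r.size ≤ qL t n := by
  have h1 : (2 * qL t n + 1).size ≤ pu t n := Nat.size_le.2 (by have := qL_le t n; omega)
  have h2 := Nat.size_le_size hr
  have h3 := Nat.mul_le_mul_right t h1
  have h4 : n.size + t + 7 = pu t n := by unfold pu; rfl
  unfold qd
  rw [show qL t n = pu t n * t + 3 * pu t n by unfold qL; ring] at *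
  omega

theorem final_num {L M t E N κ T : ℕ} (hL8 : 8 ≤ L) (hML : M = 4 * (t * L) + 3 * L)
    (hT : T = 2 ^ M) (hκ : 0 < κ) (d8 : κ ^ t * T ≤ 12 * E)
    (d9 : N ≤ 2 ^ L * (2 ^ L * 2 ^ L) ^ t * κ ^ t) (hE : E ^ 2 ≤ N * (T * N)) : False := by
  have hT0 : 0 < T := by rw [hT]; positivity
  have e1 : (2 ^ L * (2 ^ L * 2 ^ L) ^ t) ^ 2 = 2 ^ (4 * (t * L) + 2 * L) := by ring
  have e2 : T = 2 ^ L * 2 ^ (4 * (t * L) + 2 * L) := by
    rw [hT, ← pow_add]; congr 1; omega
  have h8 : 2 ^ 8 ≤ 2 ^ L := two_pow_le hL8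
  have hk : 0 < κ ^ t := by positivity
  have hq : 0 < 2 ^ (4 * (t * L) + 2 * L) := by positivity
  generalize κ ^ t = k at *
  generalize 2 ^ L * (2 ^ L * 2 ^ L) ^ t = A at *
  generalize 2 ^ (4 * (t * L) + 2 * L) = q at *
  have d10 : k ^ 2 * T * T < k ^ 2 * T * T := by
    calc _ = (k * T) ^ 2 := by ring
      _ ≤ (12 * E) ^ 2 := by gcongr
      _ = 144 * E ^ 2 := by ring
      _ ≤ 144 * ((A * k) * (T * (A * k))) := by
        refine Nat.mul_le_mul_left _ (hE.trans ?_)
        gcongr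
      _ = k ^ 2 * T * (144 * A ^ 2) := by ring
      _ < k ^ 2 * T * (2 ^ L * q) := by
        rw [e1]
        gcongr
        omega
      _ = _ := by rw [← e2]
  exact lt_irrefl _ d10

/-- If all features are nearly balanced then every disjunction errs often. -/
theorem epoch {j i : ℕ} (S : Finset ℕ) (hS : S.card ≤ n) (hX : ∀ τ, X τ ⊆ range n)
    (hE : errAll (j + 1) n X y (qT (j + 1) n) ^ 2 ≤
      qN (j + 1) n * (qT (j + 1) n * qN (j + 1) n))
    (h3 : 3 ≤ i) (hi1 : i ≤ qd (j + 1) n + S.card.size + 1)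
    (hc : Cond i (qd (j + 1) n + S.card.size) (qM (j + 1) n) (j + 1) n.size (qd (j + 1) n) 0) :
    KK (qM (j + 1) n) i < (bad X y S (qT (j + 1) n)).card := by
  by_contra hb
  rw [not_lt] at hb
  classical
  have hl : qd (j + 1) n + S.card.size ≤ qL (j + 1) n := qd_add_le hS
  have hL8 : 8 ≤ qL (j + 1) n := qL_ge _ n
  have hML : qM (j + 1) n = 4 * ((j + 1) * qL (j + 1) n) + 3 * qL (j + 1) n := by unfold qM; ring
  have hTM : qT (j + 1) n = 2 ^ qM (j + 1) n := by unfold qT; rfl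
  have d0 : 8 * (2 * (2 * qL (j + 1) n + 1) ^ (j + 1)) ≤ 2 ^ qd (j + 1) n := by
    unfold qd
    rw [pow_add 2, pow_mul]
    have := Nat.pow_le_pow_left (Nat.lt_size_self (2 * qL (j + 1) n + 1)).le (j + 1)
    omega
  have eE : errAll (j + 1) n X y (qT (j + 1) n) =
      EE n (qL (j + 1) n) (qM (j + 1) n) y (qT (j + 1) n) (j + 1) X := by
    unfold errAll EE qN feat; rfl
  have d9 : qN (j + 1) n ≤ 2 ^ qL (j + 1) n * (2 ^ qL (j + 1) n * 2 ^ qM (j + 1) n) ^ (j + 1) := by
    unfold qN; exact NN_le _ n _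
  rw [eE] at hE
  clear eE
  generalize qT (j + 1) n = T at *
  generalize qL (j + 1) n = L at *
  generalize qM (j + 1) n = M at *
  generalize qd (j + 1) n = δ at *
  generalize qN (j + 1) n = N at *
  set J : ℕ → ℕ := fun τ => if h : (X τ ∩ S).Nonempty then h.choose else 0 with hJ
  set Pi := (range T).filter (fun τ => y τ = true ∧ (X τ ∩ S).Nonempty) with hPi
  have hJ' : ∀ τ ∈ Pi, J τ ∈ X τ ∩ S := fun τ hτ => by
    have h := (mem_filter.1 hτ).2.2
    simp only [hJ, dif_pos h]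
    exact h.choose_spec
  have hP : Desig y S T J Pi := fun τ hτ =>
    ⟨mem_range.1 (mem_filter.1 hτ).1, (mem_filter.1 hτ).2.1, (mem_inter.1 (hJ' τ hτ)).2⟩
  have e1 : piOf Pi J X = Pi := filter_true_of_mem fun τ hτ => (mem_inter.1 (hJ' τ hτ)).1
  have hm : (noise X y S T).card ≤ KK M i := by
    refine le_trans (card_le_card fun τ hτ => ?_) hb
    have := mem_filter.1 hτ
    exact mem_filter.2 ⟨this.1, by simp [this.2.1, this.2.2]⟩
  have hκ : KK M L ≤ 2 ^ M := two_pow_le (Nat.sub_le _ _)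
  have h1 := iter_bound (y := y) (S := S) (T := T) (J := J) (n := n) (i := i)
    (EE n L M y T) hTM hl (by omega) (by omega) (fun Y b hb => EE_zero Y hb)
    (fun j Y g hg => by
      have a1 := EE_succ (n := n) (L := L) (T := T) (y := y) j Y hg
      rw [← hTM] at a1
      refine le_trans (Nat.add_le_add ?_ ?_) a1
      · exact Nat.mul_le_mul (Nat.pow_le_pow_left (hTM ▸ hκ) _) (Nat.le_add_right _ _)
      · exact sum_le_sum_of_subset (range_mono (Nat.le_succ L)))
    (j + 1) X (range n) Pi n.size δ 0 hP hX Subset.rfl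
    (by rw [card_range]; exact (Nat.lt_size_self n).le) hm
    (fun c => by
      have a1 : cnt X y c T ≤ T := by
        unfold cnt
        simpa using card_filter_le (range T) _
      exact a1.trans hTM.le) hc
  rw [e1] at h1
  have h2 : KK M L ^ (j + 1) * imb y T (fun _ => true) ≤ EE n L M y T (j + 1) X := by
    refine le_trans ?_ ((Nat.le_add_right _ _).trans (EE_succ (g := 0) j X (Nat.zero_le _)))
    exact Nat.mul_le_mul (Nat.pow_le_pow_left hκ _) (Nat.le_add_left _ _)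
  have c1 : pos y T (fun _ => true) ≤ Pi.card + KK M i := by
    refine le_trans (card_le_card (t := Pi ∪ bad X y S T) fun τ hτ => ?_)
      ((card_union_le _ _).trans (Nat.add_le_add_left hb _))
    have := mem_filter.1 hτ
    by_cases h : (X τ ∩ S).Nonempty
    · exact mem_union_left _ (mem_filter.2 ⟨this.1, this.2.1, h⟩)
    · exact mem_union_right _ (mem_filter.2 ⟨this.1, by simp [this.2.1, h]⟩)
  have c2 : T ≤ pos y T (fun _ => true) + neg y T (fun _ => true) := by
    refine le_trans ?_ (card_union_le _ _)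
    conv_lhs => rw [← card_range T]
    refine card_le_card fun τ hτ => ?_
    cases h : y τ <;> simp [h, mem_range.1 hτ]
  have c3 := neg_le y T (fun _ => true)
  have d1 : 2 ^ δ * 2 ^ (M - δ) = T := by rw [hTM, ← pow_add]; congr 1; omega
  have d2 : ((range n) ∩ S).card * KK M (δ + S.card.size) ≤ 2 ^ (M - δ) := by
    calc _ ≤ 2 ^ S.card.size * KK M (δ + S.card.size) :=
          Nat.mul_le_mul_right _ ((card_le_card inter_subset_right).trans
            (Nat.lt_size_self _).le)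
      _ = _ := by unfold KK; rw [← pow_add]; congr 1; omega
  have d3 : 8 * KK M i ≤ T := by
    unfold KK
    rw [hTM, show 8 = 2 ^ 3 by norm_num, ← pow_add]
    exact two_pow_le (by omega)
  have d4 : 4 * (2 * (2 * L + 1) ^ (j + 1) * (2 ^ (M - δ) +
      ((range n) ∩ S).card * KK M (δ + S.card.size))) ≤ T := by
    calc _ ≤ 4 * (2 * (2 * L + 1) ^ (j + 1) * (2 ^ (M - δ) + 2 ^ (M - δ))) := by gcongr
      _ = 8 * (2 * (2 * L + 1) ^ (j + 1)) * 2 ^ (M - δ) := by ring
      _ ≤ 2 ^ δ * 2 ^ (M - δ) := by gcongr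
      _ = T := d1
  have d5 := Nat.mul_le_mul_left (KK M L ^ (j + 1)) d4
  have d6 : 3 * T ≤ 8 * Pi.card + 4 * imb y T (fun _ => true) := by omega
  have d7 := Nat.mul_le_mul_left (KK M L ^ (j + 1)) d6
  have hκ0 : 0 < KK M L := by unfold KK; positivity
  have e2 : 2 ^ M = 2 ^ L * KK M L := by unfold KK; rw [← pow_add]; congr 1; omega
  refine final_num hL8 hML hTM hκ0 ?_ (d9.trans (le_of_eq (by rw [e2]; ring))) hE
  generalize 2 * (2 * L + 1) ^ (j + 1) * (2 ^ (M - δ) +
    ((range n) ∩ S).card * KK M (δ + S.card.size)) = A at *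
  generalize KK M L ^ (j + 1) = k at *
  have f1 : k * (4 * A) = 4 * (k * A) := by ring
  have f2 : k * (3 * T) = 3 * (k * T) := by ring
  have f3 : k * (8 * Pi.card + 4 * imb y T (fun _ => true)) =
      8 * (k * Pi.card) + 4 * (k * imb y T (fun _ => true)) := by ring
  omega

end Pool.Agent.Lib.MP_ee7726_lc.SR
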