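import Mathlib
import Pool.Agent.Lib.MP_ee7726_lc.Perc
import Pool.Agent.Lib.MP_ee7726_lc.SR.Feat

namespace Pool.Agent.Lib.MP_ee7726_lc.SR

open Finset

variable {t u n L M : ℕ} {X X' : Inst} {y y' : ℕ → Bool}

theorem ft_congr (hy : AgreeY u y y') (j : ℕ) : ∀ {X X' : Inst}, Agree u X X' → ∀ (f : ℕ) {τ : ℕ},
    τ ≤ u → ft n L M y j X f τ = ft n L M y' j X' f τ := by
  induction j with
  | zero =>
    intro X X' hX f τ hτ
    simp only [ft, fb, lo, hi, hX τ hτ]
  | succ j ih =>
    intro X X' hX f τ hτ
    simp only [ft, fu, has, hi, lev_agree hX hy _ τ hτ, ih (anch_agree hX hy _ _) _ hτ]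

theorem feat_congr (hX : Agree u X X') (hy : AgreeY u y y') (f : ℕ) {τ : ℕ} (hτ : τ ≤ u) :
    feat t n X y f τ = feat t n X' y' f τ := ft_congr hy t hX f hτ

/-- The score of the kernel perceptron at time `τ`. -/
def score (t n : ℕ) (X : Inst) (y : ℕ → Bool) (τ : ℕ) : ℤ :=
  ∑ σ ∈ range τ, sgn (y σ) * ∑ f ∈ range (qN t n), ind (feat t n X y f σ) * ind (feat t n X y f τ)

theorem score_congr (hX : Agree u X X') (hy : AgreeY u y y') {τ : ℕ} (hτ : τ ≤ u) :
    score t n X y τ = score t n X' y' τ := by
  refine sum_congr rfl fun σ hσ => ?_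
  have := mem_range.1 hσ
  rw [hy σ (by omega)]
  refine congrArg _ (sum_congr rfl fun f _ => ?_)
  rw [feat_congr hX hy f hτ, feat_congr hX hy f (by omega : σ ≤ u)]

/-- The perceptron erred at every time before `T`. -/
def AllMist (t n : ℕ) (X : Inst) (y : ℕ → Bool) (T : ℕ) : Prop :=
  ∀ τ < T, decide (0 < score t n X y τ) ≠ y τ

theorem norm_le {T : ℕ} (h : AllMist t n X y T) :
    ∑ f ∈ range (qN t n), corr y T (feat t n X y f) ^ 2 ≤ T * qN t n := by
  induction T with
  | zero => simp [corr]
  | succ T ih =>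
    have ih' := ih fun τ hτ => h τ (by omega)
    have h1 : score t n X y T =
        ∑ f ∈ range (qN t n), corr y T (feat t n X y f) * ind (feat t n X y f T) := by
      unfold score corr
      simp only [mul_sum, sum_mul]
      rw [sum_comm]
      exact sum_congr rfl fun f _ => sum_congr rfl fun σ _ => by ring
    have h2 : sgn (y T) * score t n X y T ≤ 0 := by
      have := h T (Nat.lt_succ_self T)
      cases hy : y T <;> simp [hy, sgn] at this ⊢ <;> omega
    have h3 : ∀ f ∈ range (qN t n), corr y (T + 1) (feat t n X y f) ^ 2 ≤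
        corr y T (feat t n X y f) ^ 2 +
        2 * (sgn (y T) * (corr y T (feat t n X y f) * ind (feat t n X y f T))) + 1 := by
      intro f _
      unfold corr
      rw [sum_range_succ]
      cases y T <;> cases feat t n X y f T <;> simp [sgn, ind] <;> nlinarith
    refine (sum_le_sum h3).trans ?_
    rw [sum_add_distrib, sum_add_distrib, ← mul_sum, ← mul_sum, ← h1]
    simp only [sum_const, nsmul_eq_mul, mul_one, card_range]
    push_cast
    linarith

theorem errAll_sq_le {T : ℕ} (h : AllMist t n X y T) :
    errAll t n X y T ^ 2 ≤ qN t n * (T * qN t n) := by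
  have h1 := norm_le h
  have h2 := sq_sum_le_card_mul_sum_sq (s := range (qN t n))
    (f := fun f => (imb y T (feat t n X y f) : ℤ))
  simp only [imb_sq, card_range] at h2
  have h3 : ((errAll t n X y T : ℕ) : ℤ) ^ 2 ≤ qN t n * (T * qN t n) := by
    unfold errAll
    push_cast
    exact h2.trans (mul_le_mul_of_nonneg_left h1 (by positivity))
  exact_mod_cast h3

def predT (t : ℕ) (H : Hist) (x : List Bool) : Bool :=
  decide (0 < score t x.length (hX (H ++ [(x, false)])) (hy (H ++ [(x, false)])) H.length)

def updT (t : ℕ) (H : Hist) (x : List Bool) (b : Bool) : Hist :=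
  if predT t H x = b then H else if qT t x.length ≤ H.length + 1 then [] else H ++ [(x, b)]

def Good (t n : ℕ) (H : Hist) : Prop :=
  (∀ e ∈ H, e.1.length = n) ∧ AllMist t n (hX H) (hy H) H.length

theorem Good.append {H : Hist} {x : List Bool} {b : Bool} (h : Good t n H) (hx : x.length = n)
    (hb : predT t H x ≠ b) : Good t n (H ++ [(x, b)]) := by
  refine ⟨fun e he => ?_, fun τ hτ => ?_⟩
  · rcases List.mem_append.1 he with h1 | h1
    · exact h.1 e h1
    · rw [List.mem_singleton.1 h1]; exact hx
  · rw [List.length_append, List.length_singleton] at hτ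
    rcases Nat.lt_succ_iff_lt_or_eq.1 hτ with h1 | rfl
    · rw [score_congr (u := τ) (X' := hX H) (y' := hy H)
        (fun a ha => by unfold hX; rw [getD_append_lt _ _ (by omega)])
        (fun a ha => by unfold hy; rw [getD_append_lt _ _ (by omega)]) le_rfl]
      have := h.2 τ h1
      unfold hy at this ⊢
      rwa [getD_append_lt _ _ h1]
    · rw [score_congr (u := H.length) (X' := hX (H ++ [(x, false)])) (y' := hy (H ++ [(x, false)]))
        (fun a ha => by
          unfold hX
          rcases ha.lt_or_eq with h2 | rfl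
          · rw [getD_append_lt _ _ h2, getD_append_lt _ _ h2]
          · rw [getD_append_self, getD_append_self])
        (fun a ha => by unfold hy; rw [getD_append_lt _ _ ha, getD_append_lt _ _ ha]) le_rfl]
      unfold predT at hb
      rw [hx] at hb
      have e : hy (H ++ [(x, b)]) H.length = b := by unfold hy; rw [getD_append_self]
      rwa [e]

theorem Good.sub {H : Hist} (h : Good t n H) (τ : ℕ) : hX H τ ⊆ range n := by
  rcases lt_or_ge τ H.length with h1 | h1
  · have := h.1 _ (List.getElem_mem h1)
    unfold hX toSet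
    rw [List.getD_eq_getElem _ _ h1, this]
    exact filter_subset _ _
  · simp [hX_empty H h1]

/-- Mistakes of the algorithm started with history `H`. -/
def mistT (t : ℕ) : Hist → Hist → ℕ
  | _, [] => 0
  | H, e :: r => (if predT t H e.1 = e.2 then 0 else 1) + mistT t (updT t H e.1 e.2) r

theorem mistT_le {R m : ℕ} (S : Finset ℕ) (hR : qT t n = R * m)
    (hep : ∀ H, Good t n H → H.length = qT t n → m < (bad (hX H) (hy H) S H.length).card)
    (s : Hist) (hs : ∀ e ∈ s, e.1.length = n) (H : Hist)
    (hH : Good t n H) (hl : H.length < qT t n) :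
    mistT t H s + H.length ≤
      R * ((bad (hX H) (hy H) S H.length).card + s.countP (fun e => isBad S e)) + qT t n := by
  induction s generalizing H with
  | nil => simp only [mistT]; omega
  | cons e r ih =>
    have hr : ∀ e ∈ r, e.1.length = n := fun e' he' => hs e' (List.mem_cons_of_mem _ he')
    have he : e.1.length = n := hs e List.mem_cons_self
    have hc : (e :: r).countP (fun e => isBad S e) =
        r.countP (fun e => isBad S e) + if isBad S e then 1 else 0 := by
      rw [List.countP_cons]; simp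
    rw [hc, mistT]
    unfold updT
    split_ifs with h1 h0 h2 h0 h0
    · have := ih hr H hH hl
      simp only [mul_add] at this ⊢
      omega
    · have := ih hr H hH hl
      simp only [mul_add] at this ⊢
      omega
    all_goals have hg := hH.append he h1
    all_goals have hb := bad_append H e S
    all_goals simp only [h0, if_true, if_false] at hb
    iterate 2
      · have a1 := ih hr [] ⟨by simp, fun τ hτ => by simp at hτ⟩ (by simp; omega)
        have a2 := hep _ hg (by rw [he] at h2; simp; omega)
        have a4 := Nat.mul_le_mul_left R a2.le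
        rw [hb] at a4
        simp only [bad, List.length_nil, range_zero, filter_empty, card_empty, zero_add,
          add_zero] at a1
        simp only [mul_add] at a4 ⊢
        omega
    iterate 2
      · have a1 := ih hr _ hg (by rw [he] at h2; simp; omega)
        rw [hb, List.length_append, List.length_singleton] at a1
        simp only [mul_add] at a1 ⊢
        omega

theorem exists_level (j n r : ℕ) (hr : r ≤ n) : ∃ i, 3 ≤ i ∧ i ≤ qd (j + 1) n + r.size + 1 ∧
    Cond i (qd (j + 1) n + r.size) (qM (j + 1) n) (j + 1) n.size (qd (j + 1) n) 0 ∧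
    (j + 3 + ee j) * i ≤ n.size + ee j * r.size + (j + 3 + ee j) * (qd (j + 1) n + 1) + (j + 1) := by
  have h1 := qd_add_le (t := j + 1) hr
  have h2 := qd_add_le (t := j + 1) (le_refl n)
  have h3 : 4 ≤ qd (j + 1) n := by unfold qd; omega
  have h4 : qM (j + 1) n = (4 * (j + 1) + 3) * qL (j + 1) n := by unfold qM; rfl
  generalize qd (j + 1) n = δ at *
  generalize qL (j + 1) n = L at *
  generalize qM (j + 1) n = M at *
  generalize r.size = ρ at *
  generalize n.size = s at *
  set Q := j + 3 + ee j with hQ
  set A := s + ee j * ρ + Q * (δ + 1) + (j + 1) with hA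
  have hQ0 : 0 < Q := by omega
  have a1 : Q * (A / Q) ≤ A := Nat.mul_div_le _ _
  have a2 : A < Q * (A / Q + 1) := Nat.lt_mul_div_succ _ hQ0
  have a3 : δ + 1 ≤ A / Q := (Nat.le_div_iff_mul_le hQ0).2 (by rw [mul_comm]; omega)
  have a4 : (j + 3) * (δ + ρ) ≤ M := by rw [h4]; exact Nat.mul_le_mul (by omega) h1
  have a5 : L ≤ M := by rw [h4]; exact Nat.le_mul_of_pos_left _ (by omega)
  rcases le_or_gt (A / Q) (δ + ρ) with h | h
  · refine ⟨A / Q, by omega, by omega, cond_of h j _ _ _ a4 ?_, a1⟩
    generalize A / Q = i at *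
    obtain ⟨v, hv⟩ : ∃ v, δ + ρ = i + v := ⟨δ + ρ - i, by omega⟩
    have e : δ + ρ - i = v := by omega
    have e2 : ee j * (δ + ρ) = ee j * (i + v) := by rw [hv]
    rw [e]
    rw [hA, hQ] at a2
    nlinarith
  · refine ⟨δ + ρ + 1, by omega, le_rfl, cond_of_lt (by omega) (by omega), ?_⟩
    exact (Nat.mul_le_mul_left _ h).trans a1

theorem mistT_nil_le (j : ℕ) (S : Finset ℕ) (hS : S.card ≤ n) (s : Hist)
    (hs : ∀ e ∈ s, e.1.length = n) : ∃ i, (j + 3 + ee j) * i ≤
      n.size + ee j * S.card.size + (j + 3 + ee j) * (qd (j + 1) n + 1) + (j + 1) ∧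
    mistT (j + 1) [] s ≤ 2 ^ i * s.countP (fun e => isBad S e) + qT (j + 1) n := by
  obtain ⟨i, h1, h2, h3, h4⟩ := exists_level j n S.card hS
  refine ⟨i, h4, ?_⟩
  have a1 := qd_add_le (t := j + 1) hS
  have a2 := qL_ge (j + 1) n
  have a3 : qM (j + 1) n = 4 * ((j + 1) * qL (j + 1) n) + 3 * qL (j + 1) n := by unfold qM; ring
  have a4 : qT (j + 1) n = 2 ^ i * KK (qM (j + 1) n) i := by
    unfold qT KK
    rw [← pow_add]
    congr 1
    omega
  have := mistT_le S a4 (fun H hH hl => by
    rw [hl]
    exact epoch S hS hH.sub (errAll_sq_le (hl ▸ hH.2)) h1 h2 h3) s hs []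
    ⟨by simp, fun τ hτ => by simp at hτ⟩ (by unfold qT; simp)
  simpa [bad] using this

theorem updT_size {H : Hist} {x : List Bool} (b : Bool) (hx : x.length = n)
    (h : H.length ≤ qT t n ∧ ∀ e ∈ H, e.1.length = n) :
    (updT t H x b).length ≤ qT t n ∧ ∀ e ∈ updT t H x b, e.1.length = n := by
  unfold updT
  split_ifs with h1 h2
  · exact h
  · simp
  · refine ⟨by rw [hx] at h2; simp; omega, fun e he => ?_⟩
    rcases List.mem_append.1 he with h1 | h1
    · exact h.2 e h1
    · rw [List.mem_singleton.1 h1]; exact hx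

end Pool.Agent.Lib.MP_ee7726_lc.SR
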