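import Mathlib
import Pool.Agent.Lib.MP_ee7726_lc.Poly
import Pool.Agent.Lib.MP_ee7726_lc.SR.Perc

namespace Pool.Agent.Lib.MP_ee7726_lc.SR

open N68a2faeb Pool.Agent.Shared.PolyTime N487b59b3

variable {α : Type} [N487b59b3 α] {h n L M g : α → ℕ} {X : α → Inst} {y : α → ℕ → Bool} {t : ℕ}

theorem KK_pt (hM : IsPolyTime M) (hM' : PolyBdd M) : PT2 (fun i => KK (M i)) := by
  have h1 := hM.comp (g := fun p : α × ℕ => p.1) (by fun_prop)
  have h2 := hM'.comp (f := fun p : α × ℕ => p.1) (by fun_prop)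
  unfold KK
  exact IsPolyTime.pow (IsPolyTime.const 2) (h1.sub (by fun_prop)) (h2.sub _)

theorem th_pt (hg : IsPolyTime g) (hg' : PolyBdd g) : PT2 (fun i => th (g i)) := by
  have h1 := hg.comp (g := fun p : α × ℕ => p.1) (by fun_prop)
  have h2 := hg'.comp (f := fun p : α × ℕ => p.1) (by fun_prop)
  unfold th
  exact IsPolyTime.shiftRight (IsPolyTime.pow (IsPolyTime.const 2) h1 h2) (by fun_prop)

theorem mod_bdd (g : α → ℕ) (hM' : PolyBdd M) : PolyBdd (fun i => g i % (M i + 1)) :=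
  hM'.of_le fun _ => Nat.le_of_lt_succ (Nat.mod_lt _ (Nat.succ_pos _))

theorem ft_pt (hy : PT2 y) (hn : IsPolyTime n) (hL : IsPolyTime L) (hL' : PolyBdd L)
    (hM : IsPolyTime M) (hM' : PolyBdd M) (j : ℕ) : ∀ {X : α → Inst} {f : α → ℕ}, Orc h X →
      IsPolyTime f → PT2 (fun i => ft (n i) (L i) (M i) (y i) j (X i) (f i)) := by
  induction j with
  | zero =>
    intro X f hX hf
    have h1 := (th_pt hM hM').app (t := fun i => f i / (n i + 2)) (by fun_prop)
    exact IsPolyTime.ite (by fun_prop) (lo_pt hX h1 (j := fun i => f i % (n i + 2)) (by fun_prop))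
      (hi_pt hX h1)
  | succ j ih =>
    intro X f hX hf
    have hT : IsPolyTime (fun i => 2 ^ M i) := IsPolyTime.pow (IsPolyTime.const 2) hM hM'
    have hq : IsPolyTime (fun i => f i / 2 ^ M i) := hf.div hT
    have hk : IsPolyTime (fun i => f i / 2 ^ M i % (L i + 1)) := by fun_prop
    have hk' := mod_bdd (fun i => f i / 2 ^ M i) hL'
    have hg : IsPolyTime (fun i => f i / 2 ^ M i / (L i + 1) % (M i + 1)) := by fun_prop
    have hg' := mod_bdd (fun i => f i / 2 ^ M i / (L i + 1)) hM'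
    have hr : IsPolyTime (fun i => f i / 2 ^ M i / (L i + 1) / (M i + 1)) := by fun_prop
    have hc : IsPolyTime (fun i => f i / 2 ^ M i / (L i + 1) / (M i + 1) / 2 % (n i + 2)) := by
      fun_prop
    have t1 := th_pt hg hg'
    have l1 := lev_orc hX hy (KK_pt hM hM') t1 hk hk'
    have l2 := anch_orc (a := fun i => f i % 2 ^ M i) hX hy (KK_pt hM hM') t1 hk hk' (hf.mod hT)
    have h3 := ih l2 (f := fun i => f i / 2 ^ M i / (L i + 1) / (M i + 1) / 2) (by fun_prop)
    have hfst : IsPolyTime (fun p : α × ℕ => p.1) := by fun_prop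
    have hc' := hc.comp hfst
    have hn' := hn.comp hfst
    exact IsPolyTime.ite (IsPolyTime.decide_eq (((hr.comp hfst).mod (IsPolyTime.const 2)))
        (IsPolyTime.const 0))
      (IsPolyTime.ite (IsPolyTime.decide_lt hc' hn') (has_pt l1 hc)
        (IsPolyTime.ite (IsPolyTime.decide_eq hc' hn') (hi_pt l1 (t1.app hk)) (IsPolyTime.const _)))
      h3

theorem qL_pt (hn : IsPolyTime n) : IsPolyTime (fun i => qL t (n i)) := by
  unfold qL pu; fun_prop

theorem qL_bdd (hn : IsPolyTime n) : PolyBdd (fun i => qL t (n i)) := by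
  unfold qL pu; fun_prop

theorem qM_pt (hn : IsPolyTime n) : IsPolyTime (fun i => qM t (n i)) := by
  have := qL_pt (t := t) hn
  unfold qM; fun_prop

theorem qM_bdd (hn : IsPolyTime n) : PolyBdd (fun i => qM t (n i)) := by
  have := qL_bdd (t := t) hn
  unfold qM; fun_prop

theorem qT_pt (hn : IsPolyTime n) : IsPolyTime (fun i => qT t (n i)) := by
  unfold qT
  exact IsPolyTime.pow (IsPolyTime.const 2) (qM_pt hn) (qM_bdd hn)

theorem two_pow_size_le (n : ℕ) : 2 ^ n.size ≤ 2 * (n + 1) := by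
  rcases Nat.eq_zero_or_pos n with rfl | h
  · simp
  · have h1 : 0 < n.size := Nat.size_pos.2 h
    have h2 : 2 ^ (n.size - 1) ≤ n := Nat.lt_size.1 (by omega)
    obtain ⟨t, ht⟩ : ∃ t, n.size = t + 1 := ⟨n.size - 1, by omega⟩
    rw [ht] at h2 ⊢
    simp only [Nat.add_sub_cancel] at h2
    rw [pow_succ]
    omega

theorem qT_le_poly (t n : ℕ) : qT t n ≤ (2 ^ (t + 8) * (n + 1)) ^ ((t + 3) * (4 * t + 3)) := by
  have e : qT t n = (2 ^ pu t n) ^ ((t + 3) * (4 * t + 3)) := by
    unfold qT qM qL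
    rw [← pow_mul]
    congr 1
    ring
  rw [e]
  refine Nat.pow_le_pow_left ?_ _
  unfold pu
  calc 2 ^ (n.size + t + 7) = 2 ^ (t + 7) * 2 ^ n.size := by ring
    _ ≤ 2 ^ (t + 7) * (2 * (n + 1)) := Nat.mul_le_mul_left _ (two_pow_size_le n)
    _ = _ := by ring

theorem qT_bdd (hb : PolyBdd n) : PolyBdd (fun i => qT t (n i)) :=
  PolyBdd.of_le (g := fun i => (2 ^ (t + 8) * (n i + 1)) ^ ((t + 3) * (4 * t + 3))) (by fun_prop)
    (fun i => qT_le_poly _ _)

theorem NN_pt (hn : IsPolyTime n) (hL : IsPolyTime L) (hM : IsPolyTime M) (hM' : PolyBdd M)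
    (j : ℕ) : IsPolyTime (fun i => NN (n i) (L i) (M i) j) := by
  induction j with
  | zero => unfold NN; fun_prop
  | succ j ih =>
    have hT : IsPolyTime (fun i => 2 ^ M i) := IsPolyTime.pow (IsPolyTime.const 2) hM hM'
    unfold NN
    exact IsPolyTime.mul (by fun_prop) hT

theorem qN_pt (hn : IsPolyTime n) : IsPolyTime (fun i => qN t (n i)) := by
  unfold qN
  exact NN_pt hn (qL_pt hn) (qM_pt hn) (qM_bdd hn) t

theorem qN_bdd (hb : PolyBdd n) : PolyBdd (fun i => qN t (n i)) := by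
  have h1 := qT_bdd (t := t) hb
  refine PolyBdd.of_le (g := fun i => qT t (n i) * (qT t (n i) * qT t (n i)) ^ t) (by fun_prop)
    (fun i => ?_)
  have h2 : 2 ^ qL t (n i) ≤ 2 ^ qM t (n i) := by
    refine two_pow_le ?_
    unfold qM
    exact Nat.le_mul_of_pos_left _ (by omega)
  unfold qN qT
  refine (NN_le t (n i) t).trans ?_
  gcongr

theorem score_pt {τ : α → ℕ} (hX : Orc h X) (hy : PT2 y) (hn : IsPolyTime n) (hb : PolyBdd n)
    (hτ : IsPolyTime τ) (hτ' : PolyBdd τ) :
    IsPolyTime (fun i => score t (n i) (X i) (y i) (τ i)) := by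
  unfold score
  refine IsPolyTime.finsetSum_int ?_ (IsPolyTime.finsetRange hτ hτ')
  have h1 : IsPolyTime (fun p : α × ℕ => y p.1 p.2) := hy
  have hg : IsPolyTime (fun q : (α × ℕ) × ℕ => q.1.1) := by fun_prop
  have hn' := hn.comp hg
  have h2 := ft_pt (hy.reidx hg) hn' (qL_pt (t := t) hn') (qL_bdd hn') (qM_pt (t := t) hn')
    (qM_bdd hn') t (f := fun q : (α × ℕ) × ℕ => q.2) (hX.reidx hg) (by fun_prop)
  have h3 := h2.app (t := fun q : (α × ℕ) × ℕ => q.1.2) (by fun_prop)
  have h4 := h2.app (hτ.comp hg)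
  have hind : IsPolyTime ind := by unfold ind; fun_prop
  have hsgn : IsPolyTime sgn := by unfold sgn; fun_prop
  have h5 : IsPolyTime (fun q : (α × ℕ) × ℕ =>
      ind (feat t (n q.1.1) (X q.1.1) (y q.1.1) q.2 q.1.2) *
        ind (feat t (n q.1.1) (X q.1.1) (y q.1.1) q.2 (τ q.1.1))) :=
    IsPolyTime.mul_int (hind.comp h3) (hind.comp h4)
  exact IsPolyTime.mul_int (hsgn.comp h1) (IsPolyTime.finsetSum_int h5
    (IsPolyTime.finsetRange (qN_pt (hn.comp (by fun_prop))) (qN_bdd (hb.comp (by fun_prop)))))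

theorem predT_pt : IsPolyTime (fun p : Hist × List Bool => predT t p.1 p.2) := by
  have hH : IsPolyTime (fun p : Hist × List Bool => p.1 ++ [(p.2, false)]) := by fun_prop
  have h1 : Orc (fun p : Hist × List Bool => (p.1 ++ [(p.2, false)]).length)
      (fun p => hX (p.1 ++ [(p.2, false)])) :=
    ⟨by fun_prop, by fun_prop, toSet_pt.comp (by fun_prop), fun i τ hτ => hX_empty _ hτ⟩
  have h2 : PT2 (fun p : Hist × List Bool => hy (p.1 ++ [(p.2, false)])) := by
    unfold hy PT2; fun_prop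
  exact IsPolyTime.decide_lt (IsPolyTime.const _)
    (score_pt h1 h2 (by fun_prop) (by fun_prop) (by fun_prop) (by fun_prop))

theorem updT_pt : IsPolyTime (fun p : Hist × List Bool × Bool => updT t p.1 p.2.1 p.2.2) := by
  have h1 : IsPolyTime (fun p : Hist × List Bool × Bool => predT t p.1 p.2.1) :=
    IsPolyTime.comp₂ predT_pt (by fun_prop) (by fun_prop)
  have h2 : IsPolyTime (fun p : Hist × List Bool × Bool => qT t p.2.1.length) :=
    qT_pt (by fun_prop)
  unfold updT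
  fun_prop

end Pool.Agent.Lib.MP_ee7726_lc.SR
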