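import Mathlib
import Pool.Agent.Lib.MP_ee7726_lc.Final
import Pool.Agent.Lib.MP_ee7726_lc.SR.Poly

namespace Pool.Agent.Lib.MP_ee7726_lc.SR

open N68a2faeb Pool.Agent.Shared.PolyTime N487b59b3

variable {t : ℕ}

def alg (t : ℕ) : OnlineAlg where
  init := bitEncode ([] : Hist)
  pred p := predT t (dec p.1) p.2
  upd p := bitEncode (updT t (dec p.1) p.2.1 p.2.2)

def runT (t : ℕ) (H : Hist) (s : Hist) : Hist := s.foldl (fun m e => updT t m e.1 e.2) H

theorem memory_aux {n : ℕ} (s : List ((Fin n → Bool) × Bool)) (H : Hist) :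
    s.foldl (fun m e => (alg t).upd (m, List.ofFn e.1, e.2)) (bitEncode H) =
      bitEncode (runT t H (conv s)) := by
  induction s generalizing H with
  | nil => rfl
  | cons e r ih =>
    rw [List.foldl_cons]
    have : (alg t).upd (bitEncode H, List.ofFn e.1, e.2) =
        bitEncode (updT t H (List.ofFn e.1) e.2) := by
      simp [alg, dec_enc]
    rw [this, ih]
    rfl

theorem memory_eq {n : ℕ} (s : List ((Fin n → Bool) × Bool)) :
    (alg t).memory s = bitEncode (runT t [] (conv s)) := memory_aux s []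

theorem runT_size {n : ℕ} (s : Hist) (hs : ∀ e ∈ s, e.1.length = n) (H : Hist)
    (h : H.length ≤ qT t n ∧ ∀ e ∈ H, e.1.length = n) :
    (runT t H s).length ≤ qT t n ∧ ∀ e ∈ runT t H s, e.1.length = n := by
  induction s generalizing H with
  | nil => exact h
  | cons e r ih =>
    exact ih (fun e' he' => hs e' (List.mem_cons_of_mem _ he')) _
      (updT_size e.2 (hs e List.mem_cons_self) h)

/-- A polynomial bound for the length of an epoch. -/
noncomputable def qP (t : ℕ) : Polynomial ℕ :=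
  (Polynomial.C (2 ^ (t + 8)) * (Polynomial.X + 1)) ^ ((t + 3) * (4 * t + 3))

theorem qT_le_qP (t n : ℕ) : qT t n ≤ (qP t).eval n := by
  simp only [qP, Polynomial.eval_mul, Polynomial.eval_pow, Polynomial.eval_add, Polynomial.eval_X,
    Polynomial.eval_one, Polynomial.eval_C]
  exact qT_le_poly t n

theorem alg_poly : (alg t).PolyTimePerTrial := by
  have hd : IsPolyTime dec := by unfold dec; fun_prop
  refine ⟨?_, ?_, qP t * (12 * Polynomial.X + 5), fun n s => ?_⟩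
  · exact predT_pt.comp (g := fun p : List Bool × List Bool => (dec p.1, p.2))
      (IsPolyTime.pair (hd.comp (by fun_prop)) (by fun_prop))
  · exact IsPolyTime.bitEncode (updT_pt.comp
      (g := fun p : List Bool × List Bool × Bool => (dec p.1, p.2.1, p.2.2))
      (IsPolyTime.pair (hd.comp (by fun_prop)) (by fun_prop)))
  · rw [memory_eq]
    have h1 := runT_size (t := t) (conv s) (conv_len s) [] ⟨by simp, by simp⟩
    have h2 := bsize_list_le (runT t [] (conv s)) (6 * n + 2) (fun e he => by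
      rw [bsize_prod, bsize_boolList, bsize_bool, h1.2 e he]; omega)
    have h3 := h1.1.trans (qT_le_qP t n)
    simp only [Polynomial.eval_mul, Polynomial.eval_add, Polynomial.eval_X, Polynomial.eval_ofNat]
    refine le_trans h2 ?_
    exact Nat.mul_le_mul h3 (by omega)

theorem mistT_eq (s H : Hist) : mistT t H s = ∑ j ∈ Finset.range s.length,
    if predT t (runT t H (s.take j)) (s.getD j ([], false)).1 ≠ (s.getD j ([], false)).2 then 1
    else 0 := by
  induction s generalizing H with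
  | nil => rfl
  | cons e r ih =>
    rw [List.length_cons, Finset.sum_range_succ', mistT, ih, add_comm]
    refine congrArg₂ (· + ·) rfl ?_
    by_cases h : predT t H e.1 = e.2 <;> simp [runT, h]

theorem mistakes_eq {n : ℕ} (s : List ((Fin n → Bool) × Bool)) :
    (alg t).mistakes s = mistT t [] (conv s) := by
  rw [mistT_eq, show (conv s).length = s.length by simp [conv], ← card_filter_fin]
  unfold OnlineAlg.mistakes
  refine congrArg Finset.card (Finset.filter_congr fun j _ => ?_)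
  rw [getD_conv, memory_eq]
  have : conv (s.take j) = (conv s).take j := by simp [conv, List.map_take]
  simp only [alg, dec_enc, this]

theorem two_pow_size_le' {n : ℕ} (h : 1 ≤ n) : 2 ^ n.size ≤ 2 * n := by
  have h1 : 0 < n.size := Nat.size_pos.2 h
  have h2 : 2 ^ (n.size - 1) ≤ n := Nat.lt_size.1 (by omega)
  obtain ⟨u, hu⟩ : ∃ u, n.size = u + 1 := ⟨n.size - 1, by omega⟩
  rw [hu] at h2 ⊢
  simp only [Nat.add_sub_cancel] at h2
  rw [pow_succ]
  omega

theorem ratio_nat {j n r i δ : ℕ} (hn : 1 ≤ n) (hr : 1 ≤ r)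
    (h : (j + 3 + ee j) * i ≤ n.size + ee j * r.size + (j + 3 + ee j) * (δ + 1) + (j + 1)) :
    (2 ^ i) ^ (j + 3 + ee j) ≤ (2 ^ (δ + 2)) ^ (j + 3 + ee j) * (n * r ^ ee j) := by
  calc (2 ^ i) ^ (j + 3 + ee j) = 2 ^ ((j + 3 + ee j) * i) := by rw [← pow_mul, mul_comm]
    _ ≤ 2 ^ (n.size + ee j * r.size + (j + 3 + ee j) * (δ + 1) + (j + 1)) := two_pow_le h
    _ = 2 ^ n.size * (2 ^ r.size) ^ ee j * 2 ^ ((j + 3 + ee j) * (δ + 1) + (j + 1)) := by ring
    _ ≤ 2 * n * (2 * r) ^ ee j * 2 ^ ((j + 3 + ee j) * (δ + 1) + (j + 1)) := by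
        gcongr
        · exact two_pow_size_le' hn
        · exact two_pow_size_le' hr
    _ = 2 ^ ((j + 3 + ee j) * (δ + 1) + (j + 2 + ee j)) * (n * r ^ ee j) := by ring
    _ ≤ 2 ^ ((δ + 2) * (j + 3 + ee j)) * (n * r ^ ee j) :=
        Nat.mul_le_mul_right _ (two_pow_le (by nlinarith))
    _ = _ := by rw [pow_mul]

theorem ratio_real {j n r i δ : ℕ} (hn : 1 ≤ n) (hr : 1 ≤ r)
    (h : (j + 3 + ee j) * i ≤ n.size + ee j * r.size + (j + 3 + ee j) * (δ + 1) + (j + 1)) :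
    ((2 ^ i : ℕ) : ℝ) ≤ 2 ^ (δ + 2) * ((n : ℝ) ^ (2 / (((j : ℝ) + 2) * (j + 3))) *
      (r : ℝ) ^ ((j : ℝ) / (j + 2))) := by
  have e0 : (2 : ℝ) * ee j = j * (j + 3) := by exact_mod_cast two_ee j
  have hj : (0 : ℝ) ≤ j := Nat.cast_nonneg j
  have e1 : 2 / (((j : ℝ) + 2) * (j + 3)) * ((j + 3 + ee j : ℕ) : ℝ) = 1 := by
    push_cast
    field_simp
    linarith
  have e2 : (j : ℝ) / (j + 2) * ((j + 3 + ee j : ℕ) : ℝ) = (ee j : ℕ) := by
    push_cast
    field_simp
    linarith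
  refine le_of_pow_le_pow_left₀ (n := j + 3 + ee j) (by omega) (by positivity) ?_
  rw [mul_pow, mul_pow, ← Real.rpow_natCast ((n : ℝ) ^ _), ← Real.rpow_natCast ((r : ℝ) ^ _),
    ← Real.rpow_mul (by positivity), ← Real.rpow_mul (by positivity), e1, e2, Real.rpow_one,
    Real.rpow_natCast]
  exact_mod_cast ratio_nat hn hr h

theorem qd_real (t : ℕ) {n : ℕ} (hn : 1 ≤ n) : (2 : ℝ) ^ (qd t n + 2) ≤
    64 * (6 * (t + 3) * (t + 8)) ^ t * (Real.log n + 1) ^ t := by
  have hn' : (1 : ℝ) ≤ n := by exact_mod_cast hn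
  have hlog : 0 ≤ Real.log n := Real.log_nonneg hn'
  have h1 : (pu t n : ℝ) ≤ (t + 8) * (Real.log n + 1) := by
    have a1 : 0 < n.size := Nat.size_pos.2 hn
    have a2 : 2 ^ (n.size - 1) ≤ n := Nat.lt_size.1 (by omega)
    have a3 : ((n.size - 1 : ℕ) : ℝ) * Real.log 2 ≤ Real.log n := by
      rw [← Real.log_pow]
      exact Real.log_le_log (by positivity) (by exact_mod_cast a2)
    have a4 := Real.log_two_gt_d9
    have a5 : (pu t n : ℝ) = ((n.size - 1 : ℕ) : ℝ) + t + 8 := by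
      have : pu t n = (n.size - 1) + t + 8 := by unfold pu; omega
      rw [this]; push_cast; rfl
    have a6 : (0 : ℝ) ≤ ((n.size - 1 : ℕ) : ℝ) := Nat.cast_nonneg _
    have a7 : (0 : ℝ) ≤ t * Real.log n := by positivity
    nlinarith
  have h2 : 2 ^ (2 * qL t n + 1).size ≤ 6 * (t + 3) * pu t n := by
    have a1 := two_pow_size_le' (n := 2 * qL t n + 1) (by omega)
    have a2 := qL_ge t n
    have a3 : 6 * (t + 3) * pu t n = 6 * qL t n := by unfold qL; ring
    omega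
  have h3 : (2 : ℝ) ^ (2 * qL t n + 1).size ≤ 6 * (t + 3) * (t + 8) * (Real.log n + 1) := by
    calc (2 : ℝ) ^ (2 * qL t n + 1).size ≤ 6 * (t + 3) * pu t n := by exact_mod_cast h2
      _ ≤ 6 * (t + 3) * ((t + 8) * (Real.log n + 1)) := by gcongr
      _ = _ := by ring
  calc (2 : ℝ) ^ (qd t n + 2) = 64 * (2 ^ (2 * qL t n + 1).size) ^ t := by unfold qd; ring
    _ ≤ 64 * (6 * (t + 3) * (t + 8) * (Real.log n + 1)) ^ t := by gcongr
    _ = _ := by rw [mul_pow, ← mul_assoc]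

theorem main (t : ℕ) (ht : 1 ≤ t) : ∃ A : OnlineAlg, A.PolyTimePerTrial ∧
    ∃ (C : ℝ) (q : Polynomial ℕ), ∀ (n : ℕ), 1 ≤ n →
      ∀ (s : List ((Fin n → Bool) × Bool)) (S : Finset (Fin n)), S.Nonempty →
        (A.mistakes s : ℝ) ≤
          C * (Real.log n + 1) ^ t * (n : ℝ) ^ (2 / (((t : ℝ) + 1) * (t + 2))) *
            (S.card : ℝ) ^ (((t : ℝ) - 1) / (t + 1)) * disjMistakes S s + (q.eval n : ℕ) := by
  obtain ⟨j, rfl⟩ : ∃ j, t = j + 1 := ⟨t - 1, by omega⟩
  refine ⟨alg (j + 1), alg_poly, 64 * (6 * ((j + 1 : ℕ) + 3) * ((j + 1 : ℕ) + 8)) ^ (j + 1),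
    qP (j + 1), fun n hn s S hS => ?_⟩
  obtain ⟨i, h0, h1⟩ := mistT_nil_le (n := n) j (S.map Fin.valEmbedding)
    (by rw [Finset.card_map]; simpa using S.card_le_univ) (conv s) (conv_len s)
  rw [← mistakes_eq, ← disj_eq] at h1
  rw [Finset.card_map] at h0
  have h2 := ratio_real hn hS.card_pos h0
  have h3 : ((alg (j + 1)).mistakes s : ℝ) ≤ (2 ^ i : ℕ) * disjMistakes S s + qT (j + 1) n := by
    exact_mod_cast h1
  refine h3.trans (add_le_add ?_ (by exact_mod_cast qT_le_qP _ n))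
  refine mul_le_mul_of_nonneg_right (h2.trans ?_) (Nat.cast_nonneg _)
  have e1 : (((j + 1 : ℕ) : ℝ) + 1) * ((j + 1 : ℕ) + 2) = ((j : ℝ) + 2) * (j + 3) := by
    push_cast; ring
  have e2 : (((j + 1 : ℕ) : ℝ) - 1) / ((j + 1 : ℕ) + 1) = (j : ℝ) / (j + 2) := by
    push_cast; ring
  rw [e1, e2, mul_assoc _ ((n : ℝ) ^ _)]
  exact mul_le_mul_of_nonneg_right (qd_real (j + 1) hn) (by positivity)

theorem main2 (δ : ℝ) (hδ : 0 < δ) : ∃ α : ℝ, α < 1 ∧ ∃ A : OnlineAlg, A.PolyTimePerTrial ∧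
    ∃ (C : ℝ) (q : Polynomial ℕ), ∀ (n : ℕ), 1 ≤ n →
      ∀ (s : List ((Fin n → Bool) × Bool)) (S : Finset (Fin n)), (n : ℝ) ^ δ ≤ S.card →
        (A.mistakes s : ℝ) ≤ C * (S.card : ℝ) ^ α * disjMistakes S s + (q.eval n : ℕ) := by
  obtain ⟨t, ht⟩ := exists_nat_gt (max 1 (2 / δ))
  have t1 : (1 : ℝ) < t := (le_max_left _ _).trans_lt ht
  have t2 : 2 < t * δ := (div_lt_iff₀ hδ).1 ((le_max_right _ _).trans_lt ht)
  obtain ⟨A, hA, C, q, h⟩ := main t (by exact_mod_cast t1.le)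
  set a : ℝ := 2 / (((t : ℝ) + 1) * (t + 2)) with ha
  have a0 : 0 < a := by positivity
  refine ⟨2 * a / δ + ((t : ℝ) - 1) / (t + 1), ?_, A, hA, |C| * (t / a + 1) ^ t, q,
    fun n hn s S hS => ?_⟩
  · have e : 2 * a / δ = 4 / ((t + 2) * δ) / (t + 1) := by rw [ha]; field_simp; ring
    rw [e, ← add_div, div_lt_one (by positivity)]
    have : 4 / (((t : ℝ) + 2) * δ) < 2 := by
      rw [div_lt_iff₀ (by positivity)]
      nlinarith
    linarith
  have hn' : (1 : ℝ) ≤ n := by exact_mod_cast hn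
  have hlog : 0 ≤ Real.log n := Real.log_nonneg hn'
  have r1 : (1 : ℝ) ≤ S.card := (Real.one_le_rpow hn' hδ.le).trans hS
  refine (h n hn s S (Finset.card_pos.1 (by exact_mod_cast r1))).trans (add_le_add ?_ le_rfl)
  refine mul_le_mul_of_nonneg_right ?_ (Nat.cast_nonneg _)
  have b1 : Real.log n + 1 ≤ (t / a + 1) * (n : ℝ) ^ (a / t) := by
    have c1 := Real.log_le_rpow_div (x := n) (ε := a / t) (by positivity) (by positivity)
    have c2 : (1 : ℝ) ≤ (n : ℝ) ^ (a / t) := Real.one_le_rpow hn' (by positivity)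
    have c3 : (n : ℝ) ^ (a / t) / (a / t) = t / a * (n : ℝ) ^ (a / t) := by field_simp
    linarith
  have b2 : (Real.log n + 1) ^ t ≤ (t / a + 1) ^ t * (n : ℝ) ^ a := by
    calc (Real.log n + 1) ^ t ≤ ((t / a + 1) * (n : ℝ) ^ (a / t)) ^ t := by gcongr
      _ = _ := by
        rw [mul_pow, ← Real.rpow_natCast ((n : ℝ) ^ _), ← Real.rpow_mul (by positivity)]
        congr 2
        field_simp
  have b3 : (n : ℝ) ^ a * (n : ℝ) ^ a ≤ (S.card : ℝ) ^ (2 * a / δ) := by
    calc (n : ℝ) ^ a * (n : ℝ) ^ a = ((n : ℝ) ^ δ) ^ (2 * a / δ) := by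
          rw [← Real.rpow_add (by positivity), ← Real.rpow_mul (by positivity)]
          congr 1
          field_simp
          ring
      _ ≤ _ := Real.rpow_le_rpow (by positivity) hS (by positivity)
  rw [Real.rpow_add (by positivity)]
  calc C * (Real.log n + 1) ^ t * (n : ℝ) ^ a * (S.card : ℝ) ^ (((t : ℝ) - 1) / (t + 1))
      ≤ |C| * ((t / a + 1) ^ t * (n : ℝ) ^ a) * (n : ℝ) ^ a *
        (S.card : ℝ) ^ (((t : ℝ) - 1) / (t + 1)) := by
        gcongr
        exact le_abs_self C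
    _ = |C| * (t / a + 1) ^ t * (((n : ℝ) ^ a * (n : ℝ) ^ a) *
        (S.card : ℝ) ^ (((t : ℝ) - 1) / (t + 1))) := by ring
    _ ≤ _ := by gcongr

end Pool.Agent.Lib.MP_ee7726_lc.SR
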